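import Mathlib
import Pool.Agent.H373R2.T7.RS6

/-!
Representations of `n` as the sum of a prime and `m * (m + 1)` with `m` restricted to an arbitrary set `S` of integers up to `x`: for
all but a proportion `1 / log^U x` of the `n ≤ N` (`N` of the order of magnitude of `x^2`), and more generally of the
`k`-tuples, the number of `m ∈ S` with all `n_i - m * (m + 1)` prime is given by the number of `m ∈ S` with all these
differences positive and free of primes `≤ z`, for `z` a power of `log x`.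
-/

namespace Pool.Agent.Results.MP_3f6540_nt.RestrictedPronic
open Finset Polynomial Pool.Agent.H373R2.T7.RS

lemma deg_two : (X * (X + 1) : ℤ[X]).natDegree = 2 ∧ (X * (X + 1) : ℤ[X]).leadingCoeff = 1 := by
  have h1 : (X + 1 : ℤ[X]) = X + C 1 := by simp
  have h2 : (X + C 1 : ℤ[X]).natDegree = 1 := natDegree_X_add_C 1
  have h3 : (X + C 1 : ℤ[X]) ≠ 0 := by
    intro h
    rw [h] at h2
    simp at h2
  rw [h1]
  constructor
  · rw [natDegree_mul X_ne_zero h3, natDegree_X, h2]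
  · rw [leadingCoeff_mul, leadingCoeff_X, leadingCoeff_X_add_C, one_mul]

open Classical in
theorem result (k : ℕ) (B : ℕ) (hB : 1 ≤ B) (U : ℕ) (ε : ℝ) (hε : 0 < ε) :
    ∃ B₀ : ℕ, ∀ E : ℕ, ∃ x₀ : ℕ, ∀ x : ℕ, x₀ ≤ x → ∀ N : ℕ, N ≤ B * x ^ 2 → x ^ 2 ≤ B * N →
      ∀ z : ℕ, Real.log x ^ B₀ ≤ z → (z : ℝ) ≤ Real.log x ^ E → ∀ S : Finset ℕ, S ⊆ Icc 1 x →
      (((Fintype.piFinset (fun _ : Fin k => Icc 1 N)).filter (fun n =>
        ¬ |(primeDiff (fun m => m * (m + 1)) n S : ℝ) - expectedDiff (fun m => m * (m + 1)) 2 n z x S| ≤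
          ε * expectedDiff (fun m => m * (m + 1)) 2 n z x S + x / Real.log x ^ U)).card : ℝ) ≤ (N : ℝ) ^ k / Real.log x ^ U :=
  diffs_of_one k (fun m => m * (m + 1)) (X * (X + 1)) (fun n => by simp) 2 deg_two.1 (by norm_num)
    (by rw [deg_two.2]; norm_num) B hB U ε hε

end Pool.Agent.Results.MP_3f6540_nt.RestrictedPronic
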